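import Pool.Agent.Helper98.GX.St3

/-!
# Project GX, module UNQ: a derivation is determined by its values on a transcendence basis
-/

set_option autoImplicit false

namespace Pool.Agent.Helper66.GX

open Pool.Agent.Helper98.GX
open Pool.Agent.Helper53.CX (DivVal LinSys IsNefCartier)

/-- the field of constants of a derivation -/
private noncomputable def cst {K : Type} [Field K] [Algebra ℂ K] (D : Derivation ℂ K K) :
    IntermediateField ℂ K where
  carrier := {x | D x = 0}
  mul_mem' := by
    intro a b ha hb
    show D (a * b) = 0
    rw [Derivation.leibniz, show D a = 0 from ha, show D b = 0 from hb]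
    simp
  add_mem' := by
    intro a b ha hb
    show D (a + b) = 0
    rw [map_add, show D a = 0 from ha, show D b = 0 from hb, add_zero]
  algebraMap_mem' := fun r => D.map_algebraMap r
  inv_mem' := by
    intro x hx
    show D x⁻¹ = 0
    rw [Derivation.leibniz_inv, show D x = 0 from hx, smul_zero]

private theorem mem_cst {K : Type} [Field K] [Algebra ℂ K] (D : Derivation ℂ K K) (x : K) :
    x ∈ cst D ↔ D x = 0 := Iff.rfl

/-- the derivation over its field of constants -/
private noncomputable def ovd {K : Type} [Field K] [Algebra ℂ K] (D : Derivation ℂ K K) :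
    Derivation (cst D) K K :=
  Derivation.mk'
    { toFun := D
      map_add' := D.map_add
      map_smul' := by
        intro c x
        have hc : D (c : K) = 0 := c.2
        rw [Algebra.smul_def, Derivation.leibniz]
        show (c : K) • D x + x • D (c : K) = c • D x
        rw [hc, smul_zero, add_zero]
        rfl }
    (fun a b => D.leibniz a b)

private theorem ovd_apply {K : Type} [Field K] [Algebra ℂ K] (D : Derivation ℂ K K) (x : K) :
    ovd D x = D x := rfl

private theorem vanish {K : Type} [Field K] [Algebra ℂ K] {n : ℕ} (z : Fin n → K)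
    (hz : IsTranscendenceBasis ℂ z) (D : Derivation ℂ K K) (h : ∀ i, D (z i) = 0) (f : K) :
    D f = 0 := by
  have hle : IntermediateField.adjoin ℂ (Set.range z) ≤ cst D := by
    rw [IntermediateField.adjoin_le_iff]
    rintro _ ⟨i, rfl⟩
    exact h i
  have halg : IsAlgebraic (IntermediateField.adjoin ℂ (Set.range z)) f :=
    hz.isAlgebraic_field.isAlgebraic f
  have halg2 : IsAlgebraic (cst D) f := by
    obtain ⟨p, hp0, hp⟩ := halg
    refine ⟨p.map (IntermediateField.inclusion hle).toRingHom, ?_, ?_⟩
    · rw [Ne, Polynomial.map_eq_zero]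
      exact hp0
    · rw [Polynomial.aeval_def, Polynomial.eval₂_map]
      rw [Polynomial.aeval_def] at hp
      exact hp
  have hint : IsIntegral (cst D) f := halg2.isIntegral
  have hsep : (minpoly (cst D) f).Separable := (minpoly.irreducible hint).separable
  have h1 : ovd D (Polynomial.aeval f (minpoly (cst D) f)) = 0 := by
    rw [minpoly.aeval, map_zero]
  rw [Derivation.map_aeval, ovd_apply, smul_eq_mul] at h1
  rcases mul_eq_zero.1 h1 with h2 | h2
  · exact absurd h2 (hsep.aeval_derivative_ne_zero (minpoly.aeval _ f))
  · exact h2

theorem hUNQ : StUNQ := by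
  intro K _ _ n L d f
  have hz0 : ∀ i, L.z i ≠ 0 := fun i => L.basis.1.ne_zero i
  set D : Derivation ℂ K K := d - ∑ j, (d (L.z j) / L.z j) • L.θ j with hD
  have happ : ∀ x, D x = d x - ∑ j, (d (L.z j) / L.z j) * L.θ j x := by
    intro x
    have hs : ∀ s : Finset (Fin n), (∑ j ∈ s, (d (L.z j) / L.z j) • L.θ j) x =
        ∑ j ∈ s, (d (L.z j) / L.z j) * L.θ j x := by
      intro s
      induction s using Finset.induction_on with
      | empty => simp
      | insert a s ha ih =>
        rw [Finset.sum_insert ha, Finset.sum_insert ha, Derivation.add_apply, ih]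
        rfl
    rw [hD, Derivation.sub_apply, hs]
  have h0 : ∀ i, D (L.z i) = 0 := by
    intro i
    rw [happ]
    have h1 : ∀ j, (d (L.z j) / L.z j) * L.θ j (L.z i) = if i = j then d (L.z i) else 0 := by
      intro j
      rw [L.theta_z]
      split_ifs with hij
      · subst hij
        exact div_mul_cancel₀ _ (hz0 i)
      · rw [mul_zero]
    rw [Finset.sum_congr rfl (fun j _ => h1 j)]
    simp
  have h2 := vanish L.z L.basis D h0 f
  rw [happ] at h2
  exact sub_eq_zero.1 h2

end Pool.Agent.Helper66.GX
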